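import Mathlib

/-!
Definitions for MP_a785f2_an: Sobolev maps on the unit ball of dimension `n`, antisymmetric
potentials and weak solutions of the `n`-Laplace system with a potential.
-/

open MeasureTheory Metric
open scoped ContDiff

namespace Pool.Agent.Lib.MP_a785f2_an

/-- Euclidean space of dimension `n`. -/
abbrev E (n : ℕ) : Type := EuclideanSpace ℝ (Fin n)

/-- Lebesgue measure restricted to the unit ball `B^n`. -/
noncomputable def ballMeasure (n : ℕ) : Measure (E n) :=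
  (volume : Measure (E n)).restrict (ball 0 1)

/-- Test functions on `B^n`: smooth, compactly supported inside the unit ball. -/
def IsTest {n : ℕ} (φ : E n → ℝ) : Prop :=
  ContDiff ℝ ∞ φ ∧ HasCompactSupport φ ∧ tsupport φ ⊆ ball 0 1

/-- The classical derivative of `φ` in the coordinate direction `α`. -/
noncomputable def pd {n : ℕ} (α : Fin n) (φ : E n → ℝ) (x : E n) : ℝ :=
  fderiv ℝ φ x (EuclideanSpace.single α 1)

/-- `u = (u^1, ..., u^m)` lies in `W^{1,n}(B^n, ℝ^m)` and `G i α` is the weak derivative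
of `u^i` in the direction `α`. -/
def IsW1n {n m : ℕ} (u : Fin m → E n → ℝ) (G : Fin m → Fin n → E n → ℝ) : Prop :=
  (∀ i, MemLp (u i) n (ballMeasure n)) ∧
  (∀ i α, MemLp (G i α) n (ballMeasure n)) ∧
  ∀ i α φ, IsTest φ →
    ∫ x, u i x * pd α φ x ∂(ballMeasure n) = -∫ x, G i α x * φ x ∂(ballMeasure n)

/-- The norm of the gradient: the square root of the sum of the squares of all entries. -/
noncomputable def gradNorm {n m : ℕ} (G : Fin m → Fin n → E n → ℝ) (x : E n) : ℝ :=
  √(∑ i, ∑ α, G i α x ^ 2)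

/-- `Ω α i j` is a potential with entries in `L^n(B^n)`, antisymmetric in `i, j` a.e. -/
def IsAntisymPotential {n m : ℕ} (Ω : Fin n → Fin m → Fin m → E n → ℝ) : Prop :=
  (∀ α i j, MemLp (Ω α i j) n (ballMeasure n)) ∧
  ∀ α i j, ∀ᵐ x ∂(ballMeasure n), Ω α j i x = -Ω α i j x

/-- The map with weak gradient `G` solves, in the sense of distributions on `B^n`,
`-∑_α ∂_α (|∇u|^(n-2) ∂_α u^i) = ∑_{j,α} Ω^α_{ij} |∇u|^(n-2) ∂_α u^j` for every `i`. -/
def IsWeakSolution {n m : ℕ} (G : Fin m → Fin n → E n → ℝ)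
    (Ω : Fin n → Fin m → Fin m → E n → ℝ) : Prop :=
  ∀ i φ, IsTest φ →
    ∫ x, ∑ α, gradNorm G x ^ (n - 2) * G i α x * pd α φ x ∂(ballMeasure n) =
      ∫ x, (∑ j, ∑ α, Ω α i j x * (gradNorm G x ^ (n - 2) * G j α x)) * φ x ∂(ballMeasure n)

/-- Some continuous map on `B^n` equals `u` almost everywhere. -/
def HasContinuousRep {n m : ℕ} (u : Fin m → E n → ℝ) : Prop :=
  ∃ v : E n → Fin m → ℝ, ContinuousOn v (ball 0 1) ∧
    ∀ᵐ x ∂(ballMeasure n), ∀ i, u i x = v x i

end Pool.Agent.Lib.MP_a785f2_an
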