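import Pool.Agent.Lib.MP_a785f2_an.Defs

-- part Pool.Agent.Lib.MP_a785f2_an.IBP
section

/-!
Integration by parts on the punctured ball: a point singularity is removable when
`V / ‖x‖` and the divergence of `V` are integrable.
-/

open MeasureTheory Metric Filter Topology Set
open scoped ContDiff

namespace Pool.Agent.Lib.MP_a785f2_an

/-- the punctured ball -/
def U (n : ℕ) : Set (E n) := {x | x ≠ 0 ∧ ‖x‖ < 1}

lemma isOpen_U (n : ℕ) : IsOpen (U n) := by
  have : U n = ({0}ᶜ : Set (E n)) ∩ ball 0 1 := by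
    ext x; simp [U]
  rw [this]
  exact isOpen_compl_singleton.inter isOpen_ball

lemma ae_mem_U {n : ℕ} (hn : 1 ≤ n) : ∀ᵐ x ∂(ballMeasure n), x ∈ U n := by
  have : Nontrivial (E n) := by
    have : Nonempty (Fin n) := ⟨⟨0, hn⟩⟩
    infer_instance
  unfold ballMeasure
  have h1 : ∀ᵐ x ∂((volume : Measure (E n)).restrict (ball 0 1)), x ∈ ball (0 : E n) 1 :=
    ae_restrict_mem measurableSet_ball
  have h2 : ∀ᵐ x ∂((volume : Measure (E n)).restrict (ball 0 1)), x ≠ 0 := by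
    apply ae_restrict_of_ae
    have : (volume : Measure (E n)) {0} = 0 := measure_singleton 0
    exact compl_mem_ae_iff.mpr this
  filter_upwards [h1, h2] with x h1 h2
  exact ⟨h2, by simpa using h1⟩

/-- the bump -/
noncomputable def bump (n : ℕ) : ContDiffBump (0 : E n) := ⟨1, 2, by norm_num, by norm_num⟩

/-- the cutoff -/
noncomputable def cut (n : ℕ) (k : ℕ) (x : E n) : ℝ := 1 - bump n (((k : ℝ) + 1) • x)

lemma cut_contDiff (n k : ℕ) : ContDiff ℝ ∞ (cut n k) := by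
  unfold cut
  exact contDiff_const.sub ((bump n).contDiff.comp (contDiff_const_smul _))

lemma cut_abs_le (n k : ℕ) (x : E n) : |cut n k x| ≤ 1 := by
  unfold cut
  have h1 := (bump n).nonneg (x := ((k : ℝ) + 1) • x)
  have h2 := (bump n).le_one (x := ((k : ℝ) + 1) • x)
  rw [abs_le]; constructor <;> linarith

lemma cut_eq_zero {n k : ℕ} {x : E n} (hx : ‖x‖ ≤ 1 / ((k : ℝ) + 1)) : cut n k x = 0 := by
  unfold cut
  have hk : (0 : ℝ) < (k : ℝ) + 1 := by positivity
  have : bump n (((k : ℝ) + 1) • x) = 1 := by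
    apply (bump n).one_of_mem_closedBall
    simp only [mem_closedBall, dist_zero_right, norm_smul, Real.norm_eq_abs, abs_of_pos hk]
    show _ ≤ (1 : ℝ)
    rw [le_div_iff₀ hk] at hx
    linarith
  rw [this]; ring

lemma cut_eventually_one {n : ℕ} {x : E n} (hx : x ≠ 0) :
    ∀ᶠ k : ℕ in atTop, cut n k =ᶠ[𝓝 x] fun _ => 1 := by
  have hx' : 0 < ‖x‖ := norm_pos_iff.mpr hx
  obtain ⟨N, hN⟩ := exists_nat_gt (2 / ‖x‖)
  filter_upwards [eventually_ge_atTop N] with k hk
  have hk' : (N : ℝ) ≤ k := by exact_mod_cast hk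
  have hk0 : (0 : ℝ) < (k : ℝ) + 1 := by positivity
  have h2 : 2 < ((k : ℝ) + 1) * ‖x‖ := by
    rw [div_lt_iff₀ hx'] at hN
    nlinarith
  have hc : ContinuousAt (fun y : E n => ((k : ℝ) + 1) * ‖y‖) x := by fun_prop
  filter_upwards [hc.eventually (lt_mem_nhds h2)] with y hy
  unfold cut
  have : bump n (((k : ℝ) + 1) • y) = 0 := by
    apply (bump n).zero_of_le_dist
    simp only [dist_zero_right, norm_smul, Real.norm_eq_abs, abs_of_pos hk0]
    show (2 : ℝ) ≤ _
    exact hy.le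
  rw [this]; ring

lemma exists_cut_bound (n : ℕ) : ∃ C : ℝ, 0 ≤ C ∧ ∀ (k : ℕ) (x : E n),
    ‖x‖ * ‖fderiv ℝ (cut n k) x‖ ≤ C := by
  have hb : ContDiff ℝ ∞ (bump n) := (bump n).contDiff
  have hcs : HasCompactSupport (bump n) := (bump n).hasCompactSupport
  have hc : Continuous (fun y : E n => ‖y‖ * ‖fderiv ℝ (bump n) y‖) :=
    continuous_norm.mul (hb.continuous_fderiv (by simp)).norm
  have hcs2 : HasCompactSupport (fun y : E n => ‖y‖ * ‖fderiv ℝ (bump n) y‖) :=
    HasCompactSupport.mul_left (hcs.fderiv ℝ).norm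
  obtain ⟨C, hC⟩ := hc.bounded_above_of_compact_support hcs2
  refine ⟨C, le_trans (norm_nonneg _) (hC 0), fun k x => ?_⟩
  have hk0 : (0 : ℝ) < (k : ℝ) + 1 := by positivity
  have hd : HasFDerivAt (cut n k)
      (-((fderiv ℝ (bump n) (((k : ℝ) + 1) • x)).comp
        (((k : ℝ) + 1) • ContinuousLinearMap.id ℝ (E n)))) x := by
    unfold cut
    have h1 : HasFDerivAt (fun y : E n => ((k : ℝ) + 1) • y)
        (((k : ℝ) + 1) • ContinuousLinearMap.id ℝ (E n)) x :=
      (hasFDerivAt_id x).fun_const_smul ((k : ℝ) + 1)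
    have h2 := ((hb.differentiable (by simp)) (((k : ℝ) + 1) • x)).hasFDerivAt.comp x h1
    exact h2.const_sub 1
  rw [hd.fderiv, norm_neg]
  have h3 := hC (((k : ℝ) + 1) • x)
  rw [Real.norm_eq_abs, norm_smul, Real.norm_eq_abs, abs_of_pos hk0] at h3
  have h4 : ‖(fderiv ℝ (bump n) (((k : ℝ) + 1) • x)).comp
        (((k : ℝ) + 1) • ContinuousLinearMap.id ℝ (E n))‖ ≤
      ‖fderiv ℝ (bump n) (((k : ℝ) + 1) • x)‖ * ((k : ℝ) + 1) := by
    refine (ContinuousLinearMap.opNorm_comp_le _ _).trans ?_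
    gcongr
    rw [norm_smul, Real.norm_eq_abs, abs_of_pos hk0]
    have := ContinuousLinearMap.norm_id_le (𝕜 := ℝ) (E := E n)
    nlinarith
  calc ‖x‖ * _ ≤ ‖x‖ * (‖fderiv ℝ (bump n) (((k : ℝ) + 1) • x)‖ * ((k : ℝ) + 1)) := by gcongr
    _ = ((k : ℝ) + 1) * ‖x‖ * ‖fderiv ℝ (bump n) (((k : ℝ) + 1) • x)‖ := by ring
    _ ≤ C := le_trans (le_abs_self _) h3

lemma integrable_mul_of_tsupport {n : ℕ} {F g : E n → ℝ} {K : Set (E n)} (hK : IsCompact K)
    (hKU : K ⊆ U n) (hF : ContinuousOn F (U n)) (hg : Continuous g)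
    (hgK : ∀ x, x ∉ K → g x = 0) : Integrable (fun x => F x * g x) := by
  have h1 : IntegrableOn (fun x => F x * g x) K :=
    ((hF.mono hKU).mul hg.continuousOn).integrableOn_compact hK
  exact h1.integrable_of_forall_notMem_eq_zero (fun x hx => by simp [hgK x hx])

lemma ibp_compact {n : ℕ} {V V' : E n → ℝ} {α : Fin n}
    (hV : ∀ x ∈ U n, HasLineDerivAt ℝ V (V' x) x (EuclideanSpace.single α 1))
    (hVc : ContinuousOn V (U n)) (hV'c : ContinuousOn V' (U n))
    {ψ : E n → ℝ} (hψ : ContDiff ℝ ∞ ψ) (hψc : HasCompactSupport ψ) (hψU : tsupport ψ ⊆ U n) :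
    Integrable (fun x => V x * pd α ψ x) (ballMeasure n) ∧
    Integrable (fun x => V' x * ψ x) (ballMeasure n) ∧
    ∫ x, V x * pd α ψ x ∂(ballMeasure n) = -∫ x, V' x * ψ x ∂(ballMeasure n) := by
  have hpc : Continuous (pd α ψ) := by
    unfold pd
    exact (hψ.continuous_fderiv (by simp)).clm_apply continuous_const
  have hp0 : ∀ x, x ∉ tsupport ψ → pd α ψ x = 0 := by
    intro x hx
    unfold pd
    have : fderiv ℝ ψ x = 0 := by
      by_contra h
      exact hx (support_fderiv_subset ℝ (Function.mem_support.mpr h))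
    simp [this]
  have h0 : ∀ x, x ∉ tsupport ψ → ψ x = 0 := fun x hx => image_eq_zero_of_notMem_tsupport hx
  have i1 := integrable_mul_of_tsupport hψc hψU hV'c hψ.continuous h0
  have i2 := integrable_mul_of_tsupport hψc hψU hVc hpc hp0
  have i3 := integrable_mul_of_tsupport hψc hψU hVc hψ.continuous h0
  have key := integral_bilinear_hasLineDerivAt_right_eq_neg_left_of_integrable
    (μ := (volume : Measure (E n))) (f := V) (f' := V') (g := ψ) (g' := pd α ψ)
    (v := EuclideanSpace.single α 1) (B := ContinuousLinearMap.mul ℝ ℝ) i1 i2 i3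
    (fun x hx => hV x (hψU hx))
    (fun x _ => ((hψ.differentiable (by simp)) x).hasFDerivAt.hasLineDerivAt _)
  have hsub : ∀ x, x ∉ ball (0 : E n) 1 → x ∉ tsupport ψ := by
    intro x hx hx'
    exact hx (by simpa using (hψU hx').2)
  refine ⟨i2.integrableOn, i1.integrableOn, ?_⟩
  unfold ballMeasure
  rw [setIntegral_eq_integral_of_forall_compl_eq_zero (fun x hx => by simp [hp0 x (hsub x hx)]),
    setIntegral_eq_integral_of_forall_compl_eq_zero (fun x hx => by simp [h0 x (hsub x hx)])]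
  simpa using key

theorem ibp {n : ℕ} (hn : 1 ≤ n) {V V' : Fin n → E n → ℝ} {D : E n → ℝ}
    (hV : ∀ α, ∀ x ∈ U n, HasLineDerivAt ℝ (V α) (V' α x) x (EuclideanSpace.single α 1))
    (hVc : ∀ α, ContinuousOn (V α) (U n)) (hV'c : ∀ α, ContinuousOn (V' α) (U n))
    (hD : ∀ x ∈ U n, ∑ α, V' α x = D x)
    (hVi : ∀ α, Integrable (fun x => V α x / ‖x‖) (ballMeasure n))
    (hDi : Integrable D (ballMeasure n))
    {φ : E n → ℝ} (hφ : IsTest φ) :
    ∫ x, ∑ α, V α x * pd α φ x ∂(ballMeasure n) = -∫ x, D x * φ x ∂(ballMeasure n) := by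
  obtain ⟨hφs, hφc, hφB⟩ := hφ
  set ψ : ℕ → E n → ℝ := fun k x => φ x * cut n k x with hψdef
  have hψs : ∀ k, ContDiff ℝ ∞ (ψ k) := fun k => hφs.mul (cut_contDiff n k)
  have hψc : ∀ k, HasCompactSupport (ψ k) := fun k => hφc.mul_right
  have hψU : ∀ k, tsupport (ψ k) ⊆ U n := by
    intro k x hx
    have h1 : x ∈ tsupport φ := tsupport_mul_subset_left hx
    have h2 : x ∈ tsupport (cut n k) := tsupport_mul_subset_right hx
    refine ⟨?_, by simpa using hφB h1⟩
    rintro rfl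
    have hk0 : (0 : ℝ) < 1 / ((k : ℝ) + 1) := by positivity
    rw [← not_not (a := (0 : E n) ∈ tsupport (cut n k)), notMem_tsupport_iff_eventuallyEq] at h2
    apply h2
    filter_upwards [closedBall_mem_nhds (0 : E n) hk0] with y hy
    exact cut_eq_zero (by simpa using hy)
  have hk : ∀ k, ∫ x, ∑ α, V α x * pd α (ψ k) x ∂(ballMeasure n) =
      -∫ x, D x * ψ k x ∂(ballMeasure n) := by
    intro k
    have H := fun α => ibp_compact (hV α) (hVc α) (hV'c α) (hψs k) (hψc k) (hψU k)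
    rw [integral_finsetSum _ (fun α _ => (H α).1)]
    rw [Finset.sum_congr rfl (fun α _ => (H α).2.2), Finset.sum_neg_distrib,
      ← integral_finsetSum _ (fun α _ => (H α).2.1)]
    congr 1
    apply integral_congr_ae
    filter_upwards [ae_mem_U hn] with x hx
    rw [← hD x hx, Finset.sum_mul]
  obtain ⟨C0, hC0⟩ := hφs.continuous.bounded_above_of_compact_support hφc
  obtain ⟨C1, hC1⟩ := (hφs.continuous_fderiv (by simp)).bounded_above_of_compact_support
    (hφc.fderiv ℝ)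
  obtain ⟨C2, hC2n, hC2⟩ := exists_cut_bound n
  have hC0n : 0 ≤ C0 := le_trans (norm_nonneg _) (hC0 0)
  have hC1n : 0 ≤ C1 := le_trans (norm_nonneg _) (hC1 0)
  have hev : ∀ x ∈ U n, ∀ᶠ k : ℕ in atTop, ψ k =ᶠ[𝓝 x] φ := by
    intro x hx
    filter_upwards [cut_eventually_one hx.1] with k hk
    filter_upwards [hk] with y hy
    simp [hψdef, hy]
  have L1 : Tendsto (fun k => ∫ x, ∑ α, V α x * pd α (ψ k) x ∂(ballMeasure n)) atTop
      (𝓝 (∫ x, ∑ α, V α x * pd α φ x ∂(ballMeasure n))) := by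
    apply tendsto_integral_of_dominated_convergence
      (fun x => ∑ α, ‖V α x / ‖x‖‖ * (C1 + C0 * C2))
    · intro k
      have H := fun α => ibp_compact (hV α) (hVc α) (hV'c α) (hψs k) (hψc k) (hψU k)
      exact (integrable_finsetSum _ (fun α _ => (H α).1)).aestronglyMeasurable
    · exact integrable_finsetSum _ (fun α _ => (hVi α).norm.mul_const _)
    · intro k
      filter_upwards [ae_mem_U hn] with x hx
      refine (norm_sum_le _ _).trans (Finset.sum_le_sum fun α _ => ?_)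
      have hx0 : 0 < ‖x‖ := norm_pos_iff.mpr hx.1
      have hd : fderiv ℝ (ψ k) x = φ x • fderiv ℝ (cut n k) x + cut n k x • fderiv ℝ φ x := by
        simp only [hψdef]
        exact fderiv_fun_mul ((hφs.differentiable (by simp)) x)
          (((cut_contDiff n k).differentiable (by simp)) x)
      have hb : ‖x‖ * ‖pd α (ψ k) x‖ ≤ C1 + C0 * C2 := by
        have h1 : ‖pd α (ψ k) x‖ ≤ ‖fderiv ℝ (ψ k) x‖ := by
          unfold pd
          refine ((fderiv ℝ (ψ k) x).le_opNorm _).trans ?_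
          simp
        have h2 : ‖fderiv ℝ (ψ k) x‖ ≤ C0 * ‖fderiv ℝ (cut n k) x‖ + C1 := by
          rw [hd]
          refine (norm_add_le _ _).trans (add_le_add ?_ ?_)
          · rw [norm_smul]; gcongr; exact hC0 x
          · rw [norm_smul, Real.norm_eq_abs]
            calc _ ≤ 1 * C1 := by
                  gcongr
                  · exact cut_abs_le n k x
                  · exact hC1 x
              _ = C1 := one_mul _
        have h3 := hC2 k x
        have h4 : ‖x‖ * C1 ≤ C1 := by nlinarith [hx.2]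
        calc ‖x‖ * ‖pd α (ψ k) x‖ ≤ ‖x‖ * (C0 * ‖fderiv ℝ (cut n k) x‖ + C1) := by
              gcongr; exact h1.trans h2
          _ = C0 * (‖x‖ * ‖fderiv ℝ (cut n k) x‖) + ‖x‖ * C1 := by ring
          _ ≤ C0 * C2 + C1 := by gcongr
          _ = _ := by ring
      calc ‖V α x * pd α (ψ k) x‖ = ‖V α x / ‖x‖‖ * (‖x‖ * ‖pd α (ψ k) x‖) := by
            rw [norm_mul, norm_div, norm_norm]; field_simp
        _ ≤ _ := by gcongr
    · filter_upwards [ae_mem_U hn] with x hx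
      apply tendsto_const_nhds.congr'
      filter_upwards [hev x hx] with k hk
      simp only [pd, hk.fderiv_eq]
  have L2 : Tendsto (fun k => ∫ x, D x * ψ k x ∂(ballMeasure n)) atTop
      (𝓝 (∫ x, D x * φ x ∂(ballMeasure n))) := by
    apply tendsto_integral_of_dominated_convergence (fun x => ‖D x‖ * C0)
    · intro k
      exact hDi.aestronglyMeasurable.mul (hψs k).continuous.aestronglyMeasurable
    · exact hDi.norm.mul_const _
    · intro k
      filter_upwards with x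
      rw [norm_mul]
      gcongr
      simp only [hψdef, norm_mul]
      calc ‖φ x‖ * ‖cut n k x‖ ≤ C0 * 1 := by
            gcongr
            · exact hC0 x
            · exact cut_abs_le n k x
        _ = C0 := mul_one _
    · filter_upwards [ae_mem_U hn] with x hx
      apply tendsto_const_nhds.congr'
      filter_upwards [hev x hx] with k hk
      rw [hk.eq_of_nhds]
  have L3 := L2.neg
  simp only [← hk] at L3
  exact tendsto_nhds_unique L1 L3

end Pool.Agent.Lib.MP_a785f2_an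
end

-- part Pool.Agent.Lib.MP_a785f2_an.Radial
section

/-!
Radial calculus and the integrability criteria.
-/

open MeasureTheory Metric Filter Topology Set
open scoped ContDiff

namespace Pool.Agent.Lib.MP_a785f2_an

/-- Kronecker delta -/
def kd {n : ℕ} (j α : Fin n) : ℝ := if j = α then 1 else 0

lemma hasLine_mul {n : ℕ} {f g : E n → ℝ} {f' g' : ℝ} {x v : E n}
    (hf : HasLineDerivAt ℝ f f' x v) (hg : HasLineDerivAt ℝ g g' x v) :
    HasLineDerivAt ℝ (fun y => f y * g y) (f' * g x + f x * g') x v := by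
  unfold HasLineDerivAt at *
  exact (hf.fun_mul hg).congr_deriv (by simp)

lemma hasLine_add {n : ℕ} {f g : E n → ℝ} {f' g' : ℝ} {x v : E n}
    (hf : HasLineDerivAt ℝ f f' x v) (hg : HasLineDerivAt ℝ g g' x v) :
    HasLineDerivAt ℝ (fun y => f y + g y) (f' + g') x v := by
  unfold HasLineDerivAt at *
  exact hf.add hg

lemma hasLine_const {n : ℕ} (c : ℝ) (x v : E n) :
    HasLineDerivAt ℝ (fun _ : E n => c) 0 x v := by
  unfold HasLineDerivAt
  exact hasDerivAt_const _ _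

lemma hasLine_coord {n : ℕ} (j α : Fin n) (x : E n) :
    HasLineDerivAt ℝ (fun y : E n => y j) (kd j α) x (EuclideanSpace.single α 1) := by
  unfold HasLineDerivAt
  have h : (fun t : ℝ => (x + t • EuclideanSpace.single α (1 : ℝ)) j) =
      fun t => x j + t * kd j α := by
    funext t
    simp [kd]
  rw [h]
  simpa using ((hasDerivAt_id (0 : ℝ)).mul_const (kd j α)).const_add (x j)

lemma hasLine_norm {n : ℕ} (α : Fin n) {x : E n} (hx : x ≠ 0) :
    HasLineDerivAt ℝ (fun y : E n => ‖y‖) (x α / ‖x‖) x (EuclideanSpace.single α 1) := by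
  have hx' : 0 < ‖x‖ := norm_pos_iff.mpr hx
  have h1 := (hasStrictFDerivAt_norm_sq x).hasFDerivAt
  have h2 := h1.sqrt (by positivity)
  have h3 : (fun y : E n => √(‖y‖ ^ 2)) = fun y => ‖y‖ := by
    funext y; exact Real.sqrt_sq (norm_nonneg y)
  rw [h3] at h2
  have h4 := h2.hasLineDerivAt (EuclideanSpace.single α 1)
  refine HasDerivAt.congr_deriv h4 ?_
  rw [Real.sqrt_sq hx'.le]
  simp [EuclideanSpace.inner_single_right]
  field_simp

lemma hasLine_radial {n : ℕ} (α : Fin n) {x : E n} (hx : x ≠ 0) {Φ : ℝ → ℝ} {Φ' : ℝ}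
    (h : HasDerivAt Φ Φ' ‖x‖) :
    HasLineDerivAt ℝ (fun y : E n => Φ ‖y‖) (Φ' * (x α / ‖x‖)) x (EuclideanSpace.single α 1) := by
  have h1 := hasLine_norm α hx
  unfold HasLineDerivAt at *
  have h2 : HasDerivAt Φ Φ' ‖x + (0 : ℝ) • EuclideanSpace.single α (1 : ℝ)‖ := by simpa using h
  exact h2.comp (0 : ℝ) h1

/-- `s r = sqrt (1 - log r)` -/
noncomputable def s (r : ℝ) : ℝ := √(1 - Real.log r)

lemma one_le_t {r : ℝ} (h0 : 0 < r) (h1 : r ≤ 1) : 1 ≤ 1 - Real.log r := by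
  have := Real.log_nonpos h0.le h1
  linarith

lemma s_sq {r : ℝ} (h0 : 0 < r) (h1 : r ≤ 1) : s r ^ 2 = 1 - Real.log r :=
  Real.sq_sqrt (by linarith [one_le_t h0 h1])

lemma one_le_s {r : ℝ} (h0 : 0 < r) (h1 : r ≤ 1) : 1 ≤ s r :=
  Real.one_le_sqrt.mpr (one_le_t h0 h1)

lemma s_pos {r : ℝ} (h0 : 0 < r) (h1 : r ≤ 1) : 0 < s r := by linarith [one_le_s h0 h1]

lemma hasDerivAt_s {r : ℝ} (h0 : 0 < r) (h1 : r ≤ 1) :
    HasDerivAt s (-1 / (2 * s r * r)) r := by
  have h2 : HasDerivAt (fun r => 1 - Real.log r) (-r⁻¹) r :=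
    (Real.hasDerivAt_log h0.ne').const_sub 1
  have h3 := h2.sqrt (by linarith [one_le_t h0 h1])
  have hs := s_pos h0 h1
  refine HasDerivAt.congr_deriv h3 ?_
  change -r⁻¹ / (2 * s r) = _
  field_simp

lemma continuousAt_s {r : ℝ} (h0 : 0 < r) (h1 : r ≤ 1) : ContinuousAt s r :=
  (hasDerivAt_s h0 h1).continuousAt

lemma measurable_s : Measurable s := by
  unfold s; fun_prop

lemma r_mul_s_pow_four {r : ℝ} (h0 : 0 < r) (h1 : r ≤ 1) : r * s r ^ 4 ≤ 2 := by
  have h2 : s r ^ 4 = (1 - Real.log r) ^ 2 := by rw [← s_sq h0 h1]; ring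
  have hy : 0 ≤ -Real.log r := by linarith [Real.log_nonpos h0.le h1]
  have h3 := Real.quadratic_le_exp_of_nonneg hy
  rw [Real.exp_neg, Real.exp_log h0] at h3
  rw [h2]
  have h4 : (1 - Real.log r) ^ 2 ≤ 2 * r⁻¹ := by nlinarith
  calc r * (1 - Real.log r) ^ 2 ≤ r * (2 * r⁻¹) := by gcongr
    _ = 2 := by field_simp

lemma tendsto_s : Tendsto s (𝓝[>] 0) atTop := by
  unfold s
  apply Real.tendsto_sqrt_atTop.comp
  have := Real.tendsto_log_nhdsGT_zero
  have h2 : Tendsto (fun r => -Real.log r) (𝓝[>] 0) atTop := tendsto_neg_atBot_atTop.comp this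
  simpa [sub_eq_add_neg] using tendsto_atTop_add_const_left _ 1 h2

lemma integrableOn_base : IntegrableOn (fun r : ℝ => 1 / (r * s r ^ 3)) (Ioo 0 1) := by
  let g : ℝ → ℝ := fun r => if r = 0 then 0 else 2 / s r
  have hg : ∀ r ∈ Ioo (0 : ℝ) 1, HasDerivAt g (1 / (r * s r ^ 3)) r := by
    intro r hr
    have hs := s_pos hr.1 hr.2.le
    have h1 := ((hasDerivAt_s hr.1 hr.2.le).inv hs.ne').const_mul 2
    have h2 : g =ᶠ[𝓝 r] fun y => 2 * (s⁻¹ y) := by
      filter_upwards [isOpen_ne.mem_nhds hr.1.ne'] with y hy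
      simp [g, hy, div_eq_mul_inv]
    have h3 := h1.congr_of_eventuallyEq h2
    refine h3.congr_deriv ?_
    have := hr.1
    field_simp
  have hc : ContinuousOn g (Icc 0 1) := by
    intro r hr
    rcases eq_or_lt_of_le hr.1 with h | h
    · subst h
      rw [← continuousWithinAt_sdiff_self]
      have h1 : Tendsto (fun r => 2 / s r) (𝓝[>] 0) (𝓝 0) := tendsto_s.const_div_atTop 2
      have h2 : Tendsto g (𝓝[>] 0) (𝓝 0) := by
        apply h1.congr'
        filter_upwards [self_mem_nhdsWithin] with y hy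
        have : y ≠ 0 := ne_of_gt hy
        simp [g, this]
      have h3 : g 0 = 0 := by simp [g]
      unfold ContinuousWithinAt
      rw [h3]
      apply h2.mono_left
      apply nhdsWithin_mono
      intro y hy
      exact lt_of_le_of_ne hy.1.1 (Ne.symm hy.2)
    · apply ContinuousAt.continuousWithinAt
      have hs := s_pos h hr.2
      have h1 : ContinuousAt (fun y => 2 / s y) r :=
        continuousAt_const.div (continuousAt_s h hr.2) hs.ne'
      apply h1.congr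
      filter_upwards [isOpen_ne.mem_nhds h.ne'] with y hy
      simp [g, hy]
  have := intervalIntegral.integrableOn_deriv_of_nonneg hc hg (fun r hr => by
    have := s_pos hr.1 hr.2.le
    have := hr.1
    positivity)
  exact this.mono_set Ioo_subset_Ioc_self

lemma integrable_weight {n : ℕ} (hn : 1 ≤ n) :
    Integrable (fun x : E n => 1 / (‖x‖ ^ n * s ‖x‖ ^ 3)) (ballMeasure n) := by
  have : Nontrivial (E n) := by
    have : Nonempty (Fin n) := ⟨⟨0, hn⟩⟩
    infer_instance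
  have h := (integrableOn_fun_norm_addHaar (E := E n) (volume : Measure (E n))
    (f := fun r => 1 / (r ^ n * s r ^ 3)) (r := 1)).mpr ?_
  · exact h
  · apply integrableOn_base.congr_fun _ measurableSet_Ioo
    intro r hr
    have hs := s_pos hr.1 hr.2.le
    have := hr.1
    obtain ⟨k, rfl⟩ := Nat.exists_eq_add_of_le' hn
    simp only [finrank_euclideanSpace, Fintype.card_fin, Nat.add_sub_cancel, smul_eq_mul]
    field_simp
    ring

lemma integrable_of_bound {n : ℕ} (hn : 1 ≤ n) {F : E n → ℝ} {C : ℝ}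
    (hF : AEStronglyMeasurable F (ballMeasure n))
    (hb : ∀ x ∈ U n, |F x| ≤ C / (‖x‖ ^ n * s ‖x‖ ^ 3)) : Integrable F (ballMeasure n) := by
  refine ((integrable_weight hn).const_mul C).mono' hF ?_
  filter_upwards [ae_mem_U hn] with x hx
  rw [Real.norm_eq_abs, mul_one_div]
  exact hb x hx

lemma memLp_of_bound {n : ℕ} (hn : 3 ≤ n) {F : E n → ℝ} {C : ℝ}
    (hF : AEStronglyMeasurable F (ballMeasure n))
    (hb : ∀ x ∈ U n, |F x| ≤ C / (‖x‖ * s ‖x‖)) : MemLp F n (ballMeasure n) := by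
  have hn0 : (n : ENNReal) ≠ 0 := by
    simp only [ne_eq, Nat.cast_eq_zero]; omega
  rw [← integrable_norm_rpow_iff hF hn0 (ENNReal.natCast_ne_top n)]
  simp only [ENNReal.toReal_natCast, Real.rpow_natCast]
  apply integrable_of_bound (by omega) (C := |C| ^ n) (hF.norm.pow n)
  intro x hx
  have hr : 0 < ‖x‖ := norm_pos_iff.mpr hx.1
  have hs := one_le_s hr hx.2.le
  have h1 : |F x| ≤ |C| / (‖x‖ * s ‖x‖) :=
    (hb x hx).trans (div_le_div_of_nonneg_right (le_abs_self C) (by positivity))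
  simp only [Pi.pow_apply, Real.norm_eq_abs, abs_pow, abs_abs]
  calc |F x| ^ n ≤ (|C| / (‖x‖ * s ‖x‖)) ^ n := by gcongr
    _ = |C| ^ n / (‖x‖ ^ n * s ‖x‖ ^ n) := by rw [div_pow, mul_pow]
    _ ≤ |C| ^ n / (‖x‖ ^ n * s ‖x‖ ^ 3) := by
      gcongr

lemma aesm_of_continuousOn {n : ℕ} (hn : 1 ≤ n) {F : E n → ℝ} (hF : ContinuousOn F (U n)) :
    AEStronglyMeasurable F (ballMeasure n) := by
  have h1 : (ballMeasure n).restrict (U n) = ballMeasure n :=
    Measure.restrict_eq_self_of_ae_mem (ae_mem_U hn)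
  rw [← h1]
  exact hF.aestronglyMeasurable (isOpen_U n).measurableSet

end Pool.Agent.Lib.MP_a785f2_an
end

-- part Pool.Agent.Lib.MP_a785f2_an.Scalars
section

/-!
The radial profiles of the example, their derivatives and bounds.
-/

open MeasureTheory Metric Filter Topology Set

namespace Pool.Agent.Lib.MP_a785f2_an

noncomputable def u0 (r : ℝ) : ℝ := Real.log (1 - Real.log r)
noncomputable def P (r : ℝ) : ℝ := -1 / (s r ^ 2 * r ^ 2)
noncomputable def dP (r : ℝ) : ℝ := (2 / s r ^ 2 - 1 / s r ^ 4) / r ^ 3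
noncomputable def H (r : ℝ) : ℝ := 1 / (s r ^ 3 * r)
noncomputable def K (r : ℝ) : ℝ := ((3 / 2) / s r ^ 5 - 1 / s r ^ 3) / r ^ 3
noncomputable def dK (r : ℝ) : ℝ := ((15 / 4) / s r ^ 7 - 6 / s r ^ 5 + 3 / s r ^ 3) / r ^ 4
noncomputable def Q (n : ℕ) (r : ℝ) : ℝ := s r ^ 6 + ((n : ℝ) - 1) * s r ^ 4 + 9 / 4
noncomputable def mu (n : ℕ) (r : ℝ) : ℝ :=
  (6 * s r ^ 6 + 4 * ((n : ℝ) - 1) * s r ^ 4 - 10 * Q n r) / (4 * Q n r)
noncomputable def rho (n : ℕ) (r : ℝ) : ℝ := √(Q n r) / (s r ^ 5 * r)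
noncomputable def w (n : ℕ) (r : ℝ) : ℝ := rho n r ^ (n - 2)
noncomputable def dw (n : ℕ) (r : ℝ) : ℝ :=
  -(((n : ℝ) - 2) * (1 + mu n r / s r ^ 2) * w n r / r)
noncomputable def F0 (n : ℕ) (r : ℝ) : ℝ := (1 - ((n : ℝ) - 2) * mu n r) / s r ^ 4
noncomputable def F1 (n : ℕ) (r : ℝ) : ℝ :=
  (-(15 / 4) + (3 / 2) * ((n : ℝ) - 2) * mu n r) / s r ^ 7 + ((n : ℝ) - 1) / s r ^ 3
noncomputable def cA (n : ℕ) (r : ℝ) : ℝ := F1 n r * s r ^ 2 / r
noncomputable def cb (n : ℕ) (r : ℝ) : ℝ :=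
  (s r ^ 3 * F0 n r - (3 / 2) * F1 n r) / (((n : ℝ) - 1) * r)
noncomputable def ca (n : ℕ) (r : ℝ) : ℝ := (cA n r - cb n r) / r ^ 2

section
variable {n : ℕ} {r : ℝ}

lemma hasDerivAt_u0 (h0 : 0 < r) (h1 : r ≤ 1) : HasDerivAt u0 (P r * r) r := by
  have h2 : HasDerivAt (fun r => 1 - Real.log r) (-r⁻¹) r :=
    (Real.hasDerivAt_log h0.ne').const_sub 1
  have ht := one_le_t h0 h1
  have h3 := h2.log (by linarith)
  refine HasDerivAt.congr_deriv h3 ?_
  unfold P
  rw [s_sq h0 h1]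
  have : 1 - Real.log r ≠ 0 := by linarith
  field_simp

lemma hasDerivAt_P (h0 : 0 < r) (h1 : r ≤ 1) : HasDerivAt P (dP r) r := by
  have hs := s_pos h0 h1
  have h2 := ((hasDerivAt_s h0 h1).fun_pow 2).fun_mul ((hasDerivAt_id' r).fun_pow 2)
  have h3 := (hasDerivAt_const r (-1 : ℝ)).fun_div h2 (by positivity)
  refine HasDerivAt.congr_deriv h3 ?_
  unfold dP
  simp only [Nat.cast_ofNat, Nat.add_one_sub_one]
  field_simp
  ring

lemma hasDerivAt_H (h0 : 0 < r) (h1 : r ≤ 1) : HasDerivAt H (K r * r) r := by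
  have hs := s_pos h0 h1
  have h2 := ((hasDerivAt_s h0 h1).fun_pow 3).fun_mul (hasDerivAt_id' r)
  have h3 := (hasDerivAt_const r (1 : ℝ)).fun_div h2 (by positivity)
  refine HasDerivAt.congr_deriv h3 ?_
  unfold K
  simp only [Nat.cast_ofNat, Nat.add_one_sub_one]
  field_simp
  ring

lemma hasDerivAt_K (h0 : 0 < r) (h1 : r ≤ 1) : HasDerivAt K (dK r) r := by
  have hs := s_pos h0 h1
  have h2 := (hasDerivAt_const r (3 / 2 : ℝ)).fun_div ((hasDerivAt_s h0 h1).fun_pow 5)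
    (by positivity)
  have h3 := (hasDerivAt_const r (1 : ℝ)).fun_div ((hasDerivAt_s h0 h1).fun_pow 3)
    (by positivity)
  have h4 := (h2.fun_sub h3).fun_div ((hasDerivAt_id' r).fun_pow 3) (by positivity)
  refine HasDerivAt.congr_deriv h4 ?_
  unfold dK
  simp only [Nat.cast_ofNat, Nat.add_one_sub_one]
  field_simp
  ring

lemma Q_pos (hn : 1 ≤ n) (r : ℝ) : 0 < Q n r := by
  unfold Q
  have : (0 : ℝ) ≤ (n : ℝ) - 1 := by
    have : (1 : ℝ) ≤ n := by exact_mod_cast hn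
    linarith
  positivity

lemma hasDerivAt_Q (h0 : 0 < r) (h1 : r ≤ 1) :
    HasDerivAt (Q n) ((6 * s r ^ 5 + 4 * ((n : ℝ) - 1) * s r ^ 3) * (-1 / (2 * s r * r))) r := by
  have h2 := ((((hasDerivAt_s h0 h1).fun_pow 6).fun_add
    (((hasDerivAt_s h0 h1).fun_pow 4).const_mul ((n : ℝ) - 1))).add_const (9 / 4))
  refine HasDerivAt.congr_deriv h2 ?_
  simp only [Nat.cast_ofNat, Nat.add_one_sub_one]
  ring

lemma rho_pos (hn : 1 ≤ n) (h0 : 0 < r) (h1 : r ≤ 1) : 0 < rho n r := by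
  unfold rho
  have := s_pos h0 h1
  have := Real.sqrt_pos.mpr (Q_pos hn r)
  positivity

lemma hasDerivAt_rho (hn : 1 ≤ n) (h0 : 0 < r) (h1 : r ≤ 1) :
    HasDerivAt (rho n) (-((1 + mu n r / s r ^ 2) * rho n r / r)) r := by
  have hs := s_pos h0 h1
  have hQ := Q_pos hn r
  have hq := Real.sqrt_pos.mpr hQ
  have h2 := (hasDerivAt_Q (n := n) h0 h1).sqrt hQ.ne'
  have h3 := ((hasDerivAt_s h0 h1).fun_pow 5).fun_mul (hasDerivAt_id' r)
  have h4 := h2.fun_div h3 (by positivity)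
  refine HasDerivAt.congr_deriv h4 ?_
  unfold rho mu
  have hqq : Q n r = √(Q n r) * √(Q n r) := (Real.mul_self_sqrt hQ.le).symm
  generalize √(Q n r) = q at *
  rw [hqq]
  simp only [Nat.cast_ofNat, Nat.add_one_sub_one]
  field_simp
  ring

lemma hasDerivAt_w (hn : 3 ≤ n) (h0 : 0 < r) (h1 : r ≤ 1) : HasDerivAt (w n) (dw n r) r := by
  have h2 := (hasDerivAt_rho (n := n) (by omega) h0 h1).fun_pow (n - 2)
  refine HasDerivAt.congr_deriv h2 ?_
  unfold dw w
  obtain ⟨k, rfl⟩ := Nat.exists_eq_add_of_le' hn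
  have e1 : k + 3 - 2 = k + 1 := by omega
  rw [e1]
  simp only [Nat.add_sub_cancel]
  push_cast
  ring

lemma continuousAt_mu (hn : 1 ≤ n) (h0 : 0 < r) (h1 : r ≤ 1) : ContinuousAt (mu n) r := by
  have hs := continuousAt_s h0 h1
  have hQ := (hasDerivAt_Q (n := n) h0 h1).continuousAt
  have hQ0 := Q_pos hn r
  unfold mu
  fun_prop (disch := positivity)

lemma continuousAt_dw (hn : 3 ≤ n) (h0 : 0 < r) (h1 : r ≤ 1) : ContinuousAt (dw n) r := by
  have hs := continuousAt_s h0 h1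
  have hs0 := s_pos h0 h1
  have hm := continuousAt_mu (n := n) (by omega) h0 h1
  have hw := (hasDerivAt_w hn h0 h1).continuousAt
  unfold dw
  fun_prop (disch := positivity)

lemma continuousAt_dP (h0 : 0 < r) (h1 : r ≤ 1) : ContinuousAt dP r := by
  have hs := continuousAt_s h0 h1
  have hs0 := s_pos h0 h1
  unfold dP
  fun_prop (disch := positivity)

lemma continuousAt_dK (h0 : 0 < r) (h1 : r ≤ 1) : ContinuousAt dK r := by
  have hs := continuousAt_s h0 h1
  have hs0 := s_pos h0 h1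
  unfold dK
  fun_prop (disch := positivity)

lemma continuousAt_cb (hn : 2 ≤ n) (h0 : 0 < r) (h1 : r ≤ 1) : ContinuousAt (cb n) r := by
  have hs := continuousAt_s h0 h1
  have hs0 := s_pos h0 h1
  have hm := continuousAt_mu (n := n) (by omega) h0 h1
  have hn1 : (0 : ℝ) < (n : ℝ) - 1 := by
    have : (2 : ℝ) ≤ n := by exact_mod_cast hn
    linarith
  unfold cb F0 F1
  fun_prop (disch := positivity)

lemma continuousAt_ca (hn : 2 ≤ n) (h0 : 0 < r) (h1 : r ≤ 1) : ContinuousAt (ca n) r := by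
  have hs := continuousAt_s h0 h1
  have hs0 := s_pos h0 h1
  have hm := continuousAt_mu (n := n) (by omega) h0 h1
  have hb := continuousAt_cb hn h0 h1
  unfold ca cA F1
  fun_prop (disch := positivity)

/-! ### the algebraic identities -/

lemma grad_sq (hn : 1 ≤ n) (h0 : 0 < r) (h1 : r ≤ 1) :
    P r ^ 2 * r ^ 2 + (n * H r ^ 2 + 2 * H r * K r * r ^ 2 + K r ^ 2 * r ^ 4) = rho n r ^ 2 := by
  have hs := s_pos h0 h1
  unfold rho
  rw [div_pow, Real.sq_sqrt (Q_pos hn r).le]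
  unfold P H K Q
  field_simp
  ring

lemma eq0 (hn : 2 ≤ n) (h0 : 0 < r) (h1 : r ≤ 1) :
    (dw n r * P r + w n r * dP r) * r + n * (w n r * P r) =
      -(w n r * (ca n r * r ^ 2 * (H r + K r * r ^ 2) + cb n r * (n * H r + K r * r ^ 2))) := by
  have hs := s_pos h0 h1
  have hn1 : (0 : ℝ) < (n : ℝ) - 1 := by
    have : (2 : ℝ) ≤ n := by exact_mod_cast hn
    linarith
  unfold dw ca cA cb F0 F1 P dP H K
  field_simp
  ring

lemma eq1 (h0 : 0 < r) (h1 : r ≤ 1) :
    (dw n r * H r + w n r * (K r * r)) / r + (dw n r * K r + w n r * dK r) * r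
      + (n + 1) * (w n r * K r) = w n r * P r * (ca n r * r ^ 2 + cb n r) := by
  have hs := s_pos h0 h1
  have : ca n r * r ^ 2 + cb n r = cA n r := by
    unfold ca; field_simp; ring
  rw [this]
  unfold dw cA F1 P dK H K
  field_simp
  ring

/-! ### bounds -/

lemma abs_mu_le (hn : 1 ≤ n) (r : ℝ) : |mu n r| ≤ 5 / 2 := by
  have hQ := Q_pos hn r
  have hn1 : (0 : ℝ) ≤ (n : ℝ) - 1 := by
    have : (1 : ℝ) ≤ n := by exact_mod_cast hn
    linarith
  have h6 : 0 ≤ s r ^ 6 := by positivity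
  have h4 : 0 ≤ ((n : ℝ) - 1) * s r ^ 4 := by positivity
  unfold mu
  rw [abs_le]
  constructor
  · rw [le_div_iff₀ (by positivity)]
    nlinarith
  · rw [div_le_iff₀ (by positivity)]
    unfold Q at *
    nlinarith

lemma abs_F0_le (hn : 2 ≤ n) (h0 : 0 < r) (h1 : r ≤ 1) : |F0 n r| ≤ 3 * n / s r ^ 4 := by
  have hs := s_pos h0 h1
  have hm := abs_le.mp (abs_mu_le (n := n) (by omega) r)
  have hn2 : (2 : ℝ) ≤ n := by exact_mod_cast hn
  unfold F0
  rw [abs_div, abs_of_pos (by positivity : 0 < s r ^ 4)]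
  gcongr
  rw [abs_le]
  constructor <;> nlinarith

lemma abs_F1_le (hn : 2 ≤ n) (h0 : 0 < r) (h1 : r ≤ 1) : |F1 n r| ≤ 7 * n / s r ^ 3 := by
  have hs := one_le_s h0 h1
  have hm := abs_le.mp (abs_mu_le (n := n) (by omega) r)
  have hn2 : (2 : ℝ) ≤ n := by exact_mod_cast hn
  unfold F1
  have h2 : |(-(15 / 4) + (3 / 2) * ((n : ℝ) - 2) * mu n r) / s r ^ 7| ≤ 6 * n / s r ^ 3 := by
    rw [abs_div, abs_of_pos (by positivity : 0 < s r ^ 7)]
    gcongr
    · rw [abs_le]
      constructor <;> nlinarith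
    · norm_num
  have h3 : |((n : ℝ) - 1) / s r ^ 3| ≤ n / s r ^ 3 := by
    rw [abs_div, abs_of_pos (by positivity : 0 < s r ^ 3), abs_of_nonneg (by linarith)]
    gcongr
    linarith
  calc _ ≤ _ := abs_add_le _ _
    _ ≤ 6 * n / s r ^ 3 + n / s r ^ 3 := add_le_add h2 h3
    _ = _ := by ring

lemma abs_cA_le (hn : 2 ≤ n) (h0 : 0 < r) (h1 : r ≤ 1) : |cA n r| ≤ 7 * n / (r * s r) := by
  have hs := s_pos h0 h1
  unfold cA
  rw [abs_div, abs_mul, abs_of_pos h0, abs_of_pos (by positivity : 0 < s r ^ 2)]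
  calc |F1 n r| * s r ^ 2 / r ≤ 7 * n / s r ^ 3 * s r ^ 2 / r := by
        gcongr; exact abs_F1_le hn h0 h1
    _ = _ := by field_simp

lemma abs_cb_le (hn : 2 ≤ n) (h0 : 0 < r) (h1 : r ≤ 1) : |cb n r| ≤ 14 * n / (r * s r) := by
  have hs := one_le_s h0 h1
  have hn2 : (2 : ℝ) ≤ n := by exact_mod_cast hn
  have hA : |s r ^ 3 * F0 n r| ≤ 3 * n / s r := by
    rw [abs_mul, abs_of_pos (by positivity : 0 < s r ^ 3)]
    calc s r ^ 3 * |F0 n r| ≤ s r ^ 3 * (3 * n / s r ^ 4) := by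
          gcongr; exact abs_F0_le hn h0 h1
      _ = _ := by field_simp
  have hB : |(3 / 2) * F1 n r| ≤ 11 * n / s r := by
    rw [abs_mul, abs_of_pos (by positivity : (0 : ℝ) < 3 / 2)]
    calc 3 / 2 * |F1 n r| ≤ 3 / 2 * (7 * n / s r ^ 3) := by
          gcongr; exact abs_F1_le hn h0 h1
      _ = (21 / 2) * n / s r ^ 3 := by ring
      _ ≤ 11 * n / s r ^ 1 := by
          gcongr
          · norm_num
          · norm_num
      _ = _ := by ring
  unfold cb
  rw [abs_div, abs_of_pos (by nlinarith : 0 < ((n : ℝ) - 1) * r)]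
  calc |s r ^ 3 * F0 n r - 3 / 2 * F1 n r| / (((n : ℝ) - 1) * r)
      ≤ (3 * n / s r + 11 * n / s r) / (1 * r) := by
        gcongr
        · exact (abs_sub _ _).trans (add_le_add hA hB)
        · linarith
    _ = _ := by field_simp; ring

lemma abs_ca_le (hn : 2 ≤ n) (h0 : 0 < r) (h1 : r ≤ 1) :
    |ca n r| * r ^ 2 ≤ 21 * n / (r * s r) := by
  have hs := s_pos h0 h1
  have : |ca n r| * r ^ 2 = |cA n r - cb n r| := by
    unfold ca
    rw [abs_div, abs_of_pos (by positivity : 0 < r ^ 2)]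
    field_simp
  rw [this]
  calc _ ≤ _ := abs_sub _ _
    _ ≤ 7 * n / (r * s r) + 14 * n / (r * s r) :=
      add_le_add (abs_cA_le hn h0 h1) (abs_cb_le hn h0 h1)
    _ = _ := by ring

lemma rho_le (hn : 1 ≤ n) (h0 : 0 < r) (h1 : r ≤ 1) : rho n r ≤ (n + 3) / (r * s r ^ 2) := by
  have hs := one_le_s h0 h1
  have hn1 : (1 : ℝ) ≤ n := by exact_mod_cast hn
  have h2 : √(Q n r) ≤ (n + 3) * s r ^ 3 := by
    apply Real.sqrt_le_iff.mpr
    refine ⟨by positivity, ?_⟩
    unfold Q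
    have h4 : s r ^ 4 ≤ s r ^ 6 := pow_le_pow_right₀ hs (by norm_num)
    have h5 : 1 ≤ s r ^ 6 := one_le_pow₀ hs
    have h6 : ((n + 3) * s r ^ 3) ^ 2 = (n + 3) ^ 2 * s r ^ 6 := by ring
    rw [h6]
    have h7 : ((n : ℝ) - 1) * s r ^ 4 ≤ ((n : ℝ) - 1) * s r ^ 6 := by gcongr
    nlinarith
  unfold rho
  calc √(Q n r) / (s r ^ 5 * r) ≤ (n + 3) * s r ^ 3 / (s r ^ 5 * r) := by gcongr
    _ = _ := by field_simp

lemma abs_u0_le (h0 : 0 < r) (h1 : r ≤ 1) : |u0 r| ≤ s r ^ 2 := by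
  have ht := one_le_t h0 h1
  rw [s_sq h0 h1]
  unfold u0
  rw [abs_of_nonneg (Real.log_nonneg ht)]
  have := Real.log_le_sub_one_of_pos (by linarith : 0 < 1 - Real.log r)
  linarith

lemma tendsto_u0 : Tendsto u0 (𝓝[>] 0) atTop := by
  unfold u0
  apply Real.tendsto_log_atTop.comp
  have := Real.tendsto_log_nhdsGT_zero
  have h2 : Tendsto (fun r => -Real.log r) (𝓝[>] 0) atTop := tendsto_neg_atBot_atTop.comp this
  simpa [sub_eq_add_neg] using tendsto_atTop_add_const_left _ 1 h2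

end

end Pool.Agent.Lib.MP_a785f2_an
end

-- part Pool.Agent.Lib.MP_a785f2_an.Example
section

/-!
The example: `u = (log t, t^(-3/2) x / |x|)` with `t = 1 - log |x|`.
-/

open MeasureTheory Metric Filter Topology Set

namespace Pool.Agent.Lib.MP_a785f2_an

variable {n : ℕ}

noncomputable def uu (n : ℕ) : Fin (n + 1) → E n → ℝ :=
  Fin.cons (fun x => u0 ‖x‖) (fun j x => H ‖x‖ * x j)

noncomputable def GG (n : ℕ) : Fin (n + 1) → Fin n → E n → ℝ :=
  Fin.cons (fun α x => P ‖x‖ * x α) (fun j α x => H ‖x‖ * kd j α + K ‖x‖ * (x j * x α))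

noncomputable def cc (n : ℕ) (α j : Fin n) (x : E n) : ℝ :=
  ca n ‖x‖ * (x j * x α) + cb n ‖x‖ * kd j α

noncomputable def Om (n : ℕ) (α : Fin n) : Fin (n + 1) → Fin (n + 1) → E n → ℝ :=
  Fin.cons (Fin.cons (fun _ => 0) (fun j => cc n α j))
    (fun i => Fin.cons (fun x => -cc n α i x) (fun _ _ => 0))

lemma U_pos {x : E n} (hx : x ∈ U n) : 0 < ‖x‖ := norm_pos_iff.mpr hx.1

lemma contOn_rad {Φ : ℝ → ℝ} (h : ∀ r, 0 < r → r ≤ 1 → ContinuousAt Φ r) :
    ContinuousOn (fun x : E n => Φ ‖x‖) (U n) := fun x hx =>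
  ((h _ (U_pos hx) hx.2.le).comp continuous_norm.continuousAt).continuousWithinAt

lemma contOn_coord (j : Fin n) : ContinuousOn (fun x : E n => x j) (U n) := by
  fun_prop

lemma contOn_div (j : Fin n) : ContinuousOn (fun x : E n => x j / ‖x‖) (U n) :=
  (contOn_coord j).div continuous_norm.continuousOn (fun _ hx => (U_pos hx).ne')

lemma sum_sq (x : E n) : ∑ α, x α ^ 2 = ‖x‖ ^ 2 := (EuclideanSpace.real_norm_sq_eq x).symm

lemma abs_coord_le (x : E n) (j : Fin n) : |x j| ≤ ‖x‖ := by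
  simpa using PiLp.norm_apply_le x j

lemma sum_kd_mul (j : Fin n) (f : Fin n → ℝ) : ∑ α, kd j α * f α = f j := by
  simp [kd]

lemma kd_self (j : Fin n) : kd j j = 1 := by simp [kd]

lemma abs_kd_le (j α : Fin n) : |kd j α| ≤ 1 := by
  unfold kd; split_ifs <;> simp

lemma sum_bil (x : E n) (a b c d : ℝ) :
    ∑ j, ∑ α, (a * (x j * x α) + b * kd j α) * (c * kd j α + d * (x j * x α)) =
      a * ‖x‖ ^ 2 * (c + d * ‖x‖ ^ 2) + b * (n * c + d * ‖x‖ ^ 2) := by
  have h1 : ∀ j, ∑ α, (a * (x j * x α) + b * kd j α) * (c * kd j α + d * (x j * x α)) =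
      (a * c + b * d + a * d * ‖x‖ ^ 2) * x j ^ 2 + b * c := by
    intro j
    have : ∀ α, (a * (x j * x α) + b * kd j α) * (c * kd j α + d * (x j * x α)) =
        kd j α * ((a * c + b * d) * (x j * x α) + b * c * kd j α) + a * d * x j ^ 2 * x α ^ 2 := by
      intro α; ring
    simp only [this, Finset.sum_add_distrib, sum_kd_mul, ← Finset.mul_sum, sum_sq, kd_self]
    ring
  simp only [h1, Finset.sum_add_distrib, ← Finset.mul_sum, sum_sq]
  simp
  ring

lemma sum_GG_sq (hn : 1 ≤ n) {x : E n} (hx : x ∈ U n) :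
    ∑ i, ∑ α, GG n i α x ^ 2 = rho n ‖x‖ ^ 2 := by
  rw [← grad_sq hn (U_pos hx) hx.2.le, Fin.sum_univ_succ]
  simp only [GG, Fin.cons_zero, Fin.cons_succ]
  congr 1
  · simp only [mul_pow, ← Finset.mul_sum, sum_sq]
  · have := sum_bil x (K ‖x‖) (H ‖x‖) (H ‖x‖) (K ‖x‖)
    have h2 : ∀ j α, (H ‖x‖ * kd j α + K ‖x‖ * (x j * x α)) ^ 2 =
        (K ‖x‖ * (x j * x α) + H ‖x‖ * kd j α) * (H ‖x‖ * kd j α + K ‖x‖ * (x j * x α)) := by
      intro j α; ring
    simp only [h2, this]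
    ring

lemma gradNorm_GG (hn : 1 ≤ n) {x : E n} (hx : x ∈ U n) : gradNorm (GG n) x = rho n ‖x‖ := by
  unfold gradNorm
  rw [sum_GG_sq hn hx, Real.sqrt_sq (rho_pos hn (U_pos hx) hx.2.le).le]

lemma abs_GG_le_rho (hn : 1 ≤ n) {x : E n} (hx : x ∈ U n) (i : Fin (n + 1)) (α : Fin n) :
    |GG n i α x| ≤ rho n ‖x‖ := by
  apply abs_le_of_sq_le_sq' _ (rho_pos hn (U_pos hx) hx.2.le).le |> fun h => abs_le.mpr h
  rw [← sum_GG_sq hn hx]
  calc GG n i α x ^ 2 ≤ ∑ α, GG n i α x ^ 2 :=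
        Finset.single_le_sum (f := fun α => GG n i α x ^ 2) (fun _ _ => sq_nonneg _)
          (Finset.mem_univ α)
    _ ≤ _ := Finset.single_le_sum (f := fun i => ∑ α, GG n i α x ^ 2)
          (fun _ _ => Finset.sum_nonneg fun _ _ => sq_nonneg _) (Finset.mem_univ i)

lemma contOn_uu (i : Fin (n + 1)) : ContinuousOn (uu n i) (U n) := by
  refine Fin.cases ?_ (fun j => ?_) i
  · simp only [uu, Fin.cons_zero]
    exact contOn_rad fun r h0 h1 => (hasDerivAt_u0 h0 h1).continuousAt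
  · simp only [uu, Fin.cons_succ]
    exact (contOn_rad fun r h0 h1 => (hasDerivAt_H h0 h1).continuousAt).mul (contOn_coord j)

lemma contOn_GG (i : Fin (n + 1)) (α : Fin n) : ContinuousOn (GG n i α) (U n) := by
  refine Fin.cases ?_ (fun j => ?_) i
  · simp only [GG, Fin.cons_zero]
    exact (contOn_rad fun r h0 h1 => (hasDerivAt_P h0 h1).continuousAt).mul (contOn_coord α)
  · simp only [GG, Fin.cons_succ]
    exact ((contOn_rad fun r h0 h1 => (hasDerivAt_H h0 h1).continuousAt).mul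
      continuousOn_const).add ((contOn_rad fun r h0 h1 => (hasDerivAt_K h0 h1).continuousAt).mul
        ((contOn_coord j).mul (contOn_coord α)))

lemma contOn_cc (hn : 2 ≤ n) (α j : Fin n) : ContinuousOn (cc n α j) (U n) := by
  unfold cc
  exact ((contOn_rad fun r h0 h1 => continuousAt_ca hn h0 h1).mul
    ((contOn_coord j).mul (contOn_coord α))).add
    ((contOn_rad fun r h0 h1 => continuousAt_cb hn h0 h1).mul continuousOn_const)

lemma contOn_Om (hn : 2 ≤ n) (α : Fin n) (i j : Fin (n + 1)) :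
    ContinuousOn (Om n α i j) (U n) := by
  refine Fin.cases ?_ (fun i => ?_) i <;> refine Fin.cases ?_ (fun j => ?_) j
  · simp only [Om, Fin.cons_zero]; exact continuousOn_const
  · simp only [Om, Fin.cons_zero, Fin.cons_succ]; exact contOn_cc hn α j
  · simp only [Om, Fin.cons_zero, Fin.cons_succ]; exact (contOn_cc hn α i).neg
  · simp only [Om, Fin.cons_succ]; exact continuousOn_const

lemma abs_cc_le (hn : 2 ≤ n) (α j : Fin n) {x : E n} (hx : x ∈ U n) :
    |cc n α j x| ≤ 35 * n / (‖x‖ * s ‖x‖) := by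
  have h0 := U_pos hx
  have h1 := hx.2.le
  have hA : |ca n ‖x‖ * (x j * x α)| ≤ 21 * n / (‖x‖ * s ‖x‖) := by
    refine le_trans ?_ (abs_ca_le hn h0 h1)
    rw [abs_mul, abs_mul, sq]
    gcongr
    · exact abs_coord_le x j
    · exact abs_coord_le x α
  have hB : |cb n ‖x‖ * kd j α| ≤ 14 * n / (‖x‖ * s ‖x‖) := by
    refine le_trans ?_ (abs_cb_le hn h0 h1)
    rw [abs_mul]
    exact mul_le_of_le_one_right (abs_nonneg _) (abs_kd_le j α)
  unfold cc
  calc _ ≤ _ := abs_add_le _ _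
    _ ≤ _ := add_le_add hA hB
    _ = _ := by ring

lemma abs_Om_le (hn : 2 ≤ n) (α : Fin n) (i j : Fin (n + 1)) {x : E n} (hx : x ∈ U n) :
    |Om n α i j x| ≤ 35 * n / (‖x‖ * s ‖x‖) := by
  have h0 := U_pos hx
  have hs := s_pos h0 hx.2.le
  refine Fin.cases ?_ (fun i => ?_) i <;> refine Fin.cases ?_ (fun j => ?_) j
  · simp only [Om, Fin.cons_zero, abs_zero]; positivity
  · simp only [Om, Fin.cons_zero, Fin.cons_succ]; exact abs_cc_le hn α j hx
  · simp only [Om, Fin.cons_zero, Fin.cons_succ, abs_neg]; exact abs_cc_le hn α i hx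
  · simp only [Om, Fin.cons_succ, abs_zero]; positivity

lemma Om_antisymm (α : Fin n) (i j : Fin (n + 1)) (x : E n) : Om n α j i x = -Om n α i j x := by
  refine Fin.cases ?_ (fun i => ?_) i <;> refine Fin.cases ?_ (fun j => ?_) j <;> simp [Om]

theorem isAntisymPotential (hn : 3 ≤ n) : IsAntisymPotential (Om n) :=
  ⟨fun α i j => memLp_of_bound hn (aesm_of_continuousOn (by omega) (contOn_Om (by omega) α i j))
      (fun _ hx => abs_Om_le (by omega) α i j hx),
    fun α i j => Eventually.of_forall (Om_antisymm α i j)⟩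

lemma abs_uu_le (i : Fin (n + 1)) {x : E n} (hx : x ∈ U n) : |uu n i x| ≤ s ‖x‖ ^ 2 := by
  have h0 := U_pos hx
  have hs := one_le_s h0 hx.2.le
  refine Fin.cases ?_ (fun j => ?_) i
  · simp only [uu, Fin.cons_zero]; exact abs_u0_le h0 hx.2.le
  · simp only [uu, Fin.cons_succ]
    have hH : 0 < H ‖x‖ := by unfold H; positivity
    rw [abs_mul, abs_of_pos hH]
    calc H ‖x‖ * |x j| ≤ H ‖x‖ * ‖x‖ := by gcongr; exact abs_coord_le x j
      _ = 1 / s ‖x‖ ^ 3 := by unfold H; field_simp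
      _ ≤ 1 := by
        rw [div_le_one (by positivity)]; exact one_le_pow₀ hs
      _ ≤ _ := one_le_pow₀ hs

lemma hasLine_uu (i : Fin (n + 1)) (α : Fin n) {x : E n} (hx : x ∈ U n) :
    HasLineDerivAt ℝ (uu n i) (GG n i α x) x (EuclideanSpace.single α 1) := by
  have h0 := U_pos hx
  refine Fin.cases ?_ (fun j => ?_) i
  · simp only [uu, GG, Fin.cons_zero]
    refine HasDerivAt.congr_deriv (hasLine_radial α hx.1 (hasDerivAt_u0 h0 hx.2.le)) ?_
    field_simp
  · simp only [uu, GG, Fin.cons_succ]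
    refine HasDerivAt.congr_deriv (hasLine_mul (hasLine_radial α hx.1 (hasDerivAt_H h0 hx.2.le))
      (hasLine_coord j α x)) ?_
    field_simp
    ring

/-- `r^(n-2) s^k ≤ 2` for `k ≤ 4`, `n ≥ 3`. -/
lemma aux_bound (hn : 3 ≤ n) {r : ℝ} (h0 : 0 < r) (h1 : r ≤ 1) :
    r ^ n * s r ^ 4 ≤ 2 * r ^ 2 := by
  obtain ⟨k, rfl⟩ := Nat.exists_eq_add_of_le' hn
  have h2 := r_mul_s_pow_four h0 h1
  have h3 : r ^ k ≤ 1 := pow_le_one₀ h0.le h1
  have hs := s_pos h0 h1
  calc r ^ (k + 3) * s r ^ 4 = r ^ k * (r * s r ^ 4) * r ^ 2 := by ring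
    _ ≤ 1 * 2 * r ^ 2 := by gcongr
    _ = _ := by ring

theorem isW1n (hn : 3 ≤ n) : IsW1n (uu n) (GG n) := by
  have hn1 : 1 ≤ n := by omega
  have hGb : ∀ i α, ∀ x ∈ U n, |GG n i α x| ≤ (n + 3) / (‖x‖ * s ‖x‖) := by
    intro i α x hx
    have h0 := U_pos hx
    have hs := one_le_s h0 hx.2.le
    refine (abs_GG_le_rho hn1 hx i α).trans ((rho_le hn1 h0 hx.2.le).trans ?_)
    gcongr
    nlinarith
  refine ⟨fun i => ?_, fun i α => ?_, fun i α φ hφ => ?_⟩
  · apply memLp_of_bound hn (C := 2) (aesm_of_continuousOn hn1 (contOn_uu i))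
    intro x hx
    have h0 := U_pos hx
    have hs := one_le_s h0 hx.2.le
    refine (abs_uu_le i hx).trans ?_
    rw [le_div_iff₀ (by positivity)]
    have := r_mul_s_pow_four h0 hx.2.le
    have h4 : s ‖x‖ ^ 3 ≤ s ‖x‖ ^ 4 := pow_le_pow_right₀ hs (by norm_num)
    nlinarith
  · exact memLp_of_bound hn (aesm_of_continuousOn hn1 (contOn_GG i α)) (hGb i α)
  · have key := ibp hn1 (V := fun β x => kd α β * uu n i x) (V' := fun β x => kd α β * GG n i β x)
      (D := GG n i α) (φ := φ) ?_ ?_ ?_ ?_ ?_ ?_ hφ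
    · rw [← key]
      congr 1
      funext x
      simp only [mul_assoc, sum_kd_mul]
    · intro β x hx
      exact HasDerivAt.congr_deriv (hasLine_mul (hasLine_const (kd α β) x _) (hasLine_uu i β hx))
        (by simp)
    · exact fun β => continuousOn_const.mul (contOn_uu i)
    · exact fun β => continuousOn_const.mul (contOn_GG i β)
    · intro x _
      exact sum_kd_mul α (fun β => GG n i β x)
    · intro β
      apply integrable_of_bound hn1 (C := 4)
      · exact aesm_of_continuousOn hn1 ((continuousOn_const.mul (contOn_uu i)).div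
          continuous_norm.continuousOn (fun _ hx => (U_pos hx).ne'))
      · intro x hx
        have h0 := U_pos hx
        have hs := one_le_s h0 hx.2.le
        rw [abs_div, abs_mul, abs_of_pos h0, div_le_div_iff₀ h0 (by positivity)]
        have h2 := aux_bound hn h0 hx.2.le
        have h3 := r_mul_s_pow_four h0 hx.2.le
        have h4 : s ‖x‖ ≤ s ‖x‖ ^ 4 := le_self_pow₀ hs (by norm_num)
        calc |kd α β| * |uu n i x| * (‖x‖ ^ n * s ‖x‖ ^ 3)
            ≤ 1 * s ‖x‖ ^ 2 * (‖x‖ ^ n * s ‖x‖ ^ 3) := by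
              gcongr
              · exact abs_kd_le α β
              · exact abs_uu_le i hx
          _ = (‖x‖ ^ n * s ‖x‖ ^ 4) * s ‖x‖ := by ring
          _ ≤ (2 * ‖x‖ ^ 2) * s ‖x‖ ^ 4 := by gcongr
          _ = 2 * ‖x‖ * (‖x‖ * s ‖x‖ ^ 4) := by ring
          _ ≤ 2 * ‖x‖ * 2 := by gcongr
          _ = _ := by ring
    · apply integrable_of_bound hn1 (C := (n + 3) * 2) (aesm_of_continuousOn hn1 (contOn_GG i α))
      intro x hx
      have h0 := U_pos hx
      have hs := one_le_s h0 hx.2.le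
      refine (hGb i α x hx).trans ?_
      rw [div_le_div_iff₀ (by positivity) (by positivity)]
      have h2 := aux_bound hn h0 hx.2.le
      have h4 : s ‖x‖ ^ 3 ≤ s ‖x‖ ^ 4 := pow_le_pow_right₀ hs (by norm_num)
      have h5 : ‖x‖ ^ 2 ≤ ‖x‖ * s ‖x‖ := by rw [sq]; gcongr; linarith [hx.2]
      calc (n + 3) * (‖x‖ ^ n * s ‖x‖ ^ 3) ≤ (n + 3) * (‖x‖ ^ n * s ‖x‖ ^ 4) := by gcongr
        _ ≤ (n + 3) * (2 * ‖x‖ ^ 2) := by gcongr
        _ ≤ (n + 3) * (2 * (‖x‖ * s ‖x‖)) := by gcongr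
        _ = _ := by ring

/-- the derivative of `w G i α` in the direction `α` -/
noncomputable def VV' (n : ℕ) : Fin (n + 1) → Fin n → E n → ℝ :=
  Fin.cons (fun α x => (dw n ‖x‖ * P ‖x‖ + w n ‖x‖ * dP ‖x‖) * (x α / ‖x‖) * x α
      + w n ‖x‖ * P ‖x‖)
    (fun j α x => kd j α * ((dw n ‖x‖ * H ‖x‖ + w n ‖x‖ * (K ‖x‖ * ‖x‖)) * (x α / ‖x‖)
        + w n ‖x‖ * K ‖x‖ * x α)
      + (dw n ‖x‖ * K ‖x‖ + w n ‖x‖ * dK ‖x‖) * (x α / ‖x‖) * (x j * x α)
      + w n ‖x‖ * K ‖x‖ * x j)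

lemma hasLine_VV (hn : 3 ≤ n) (i : Fin (n + 1)) (α : Fin n) {x : E n} (hx : x ∈ U n) :
    HasLineDerivAt ℝ (fun y => w n ‖y‖ * GG n i α y) (VV' n i α x) x
      (EuclideanSpace.single α 1) := by
  have h0 := U_pos hx
  have h1 := hx.2.le
  have hw := hasLine_radial α hx.1 (hasDerivAt_w hn h0 h1)
  refine Fin.cases ?_ (fun j => ?_) i
  · simp only [GG, VV', Fin.cons_zero]
    refine HasDerivAt.congr_deriv (hasLine_mul hw (hasLine_mul
      (hasLine_radial α hx.1 (hasDerivAt_P h0 h1)) (hasLine_coord α α x))) ?_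
    rw [kd_self]
    ring
  · simp only [GG, VV', Fin.cons_succ]
    refine HasDerivAt.congr_deriv (hasLine_mul hw (hasLine_add
      (hasLine_mul (hasLine_radial α hx.1 (hasDerivAt_H h0 h1)) (hasLine_const (kd j α) x _))
      (hasLine_mul (hasLine_radial α hx.1 (hasDerivAt_K h0 h1))
        (hasLine_mul (hasLine_coord j α x) (hasLine_coord α α x))))) ?_
    rw [kd_self]
    ring

lemma contOn_VV' (hn : 3 ≤ n) (i : Fin (n + 1)) (α : Fin n) : ContinuousOn (VV' n i α) (U n) := by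
  have cw : ContinuousOn (fun x : E n => w n ‖x‖) (U n) :=
    contOn_rad fun r h0 h1 => (hasDerivAt_w hn h0 h1).continuousAt
  have cdw : ContinuousOn (fun x : E n => dw n ‖x‖) (U n) :=
    contOn_rad fun r h0 h1 => continuousAt_dw hn h0 h1
  have cP : ContinuousOn (fun x : E n => P ‖x‖) (U n) :=
    contOn_rad fun r h0 h1 => (hasDerivAt_P h0 h1).continuousAt
  have cH : ContinuousOn (fun x : E n => H ‖x‖) (U n) :=
    contOn_rad fun r h0 h1 => (hasDerivAt_H h0 h1).continuousAt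
  have cK : ContinuousOn (fun x : E n => K ‖x‖) (U n) :=
    contOn_rad fun r h0 h1 => (hasDerivAt_K h0 h1).continuousAt
  have cdP : ContinuousOn (fun x : E n => dP ‖x‖) (U n) :=
    contOn_rad fun r h0 h1 => continuousAt_dP h0 h1
  have cdK : ContinuousOn (fun x : E n => dK ‖x‖) (U n) :=
    contOn_rad fun r h0 h1 => continuousAt_dK h0 h1
  have cn : ContinuousOn (fun x : E n => ‖x‖) (U n) := continuous_norm.continuousOn
  have cα := contOn_coord (n := n) α
  have cd := contOn_div (n := n) α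
  refine Fin.cases ?_ (fun j => ?_) i
  · simp only [VV', Fin.cons_zero]
    exact ((((cdw.mul cP).add (cw.mul cdP)).mul cd).mul cα).add (cw.mul cP)
  · simp only [VV', Fin.cons_succ]
    have cj := contOn_coord (n := n) j
    exact ((continuousOn_const.mul ((((cdw.mul cH).add (cw.mul (cK.mul cn))).mul cd).add
      ((cw.mul cK).mul cα))).add ((((cdw.mul cK).add (cw.mul cdK)).mul cd).mul (cj.mul cα))).add
      ((cw.mul cK).mul cj)

lemma sum_VV' (hn : 3 ≤ n) (i : Fin (n + 1)) {x : E n} (hx : x ∈ U n) :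
    ∑ α, VV' n i α x = -∑ j, ∑ α, Om n α i j x * (w n ‖x‖ * GG n j α x) := by
  have h0 := U_pos hx
  have h1 := hx.2.le
  refine Fin.cases ?_ (fun i => ?_) i
  · rw [Fin.sum_univ_succ]
    simp only [VV', Om, GG, Fin.cons_zero, Fin.cons_succ, zero_mul, Finset.sum_const_zero,
      zero_add]
    have e1 : ∀ j α, cc n α j x * (w n ‖x‖ * (H ‖x‖ * kd j α + K ‖x‖ * (x j * x α))) =
        w n ‖x‖ * ((ca n ‖x‖ * (x j * x α) + cb n ‖x‖ * kd j α) *
          (H ‖x‖ * kd j α + K ‖x‖ * (x j * x α))) := by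
      intro j α; unfold cc; ring
    simp only [e1, ← Finset.mul_sum, sum_bil]
    rw [← eq0 (by omega) h0 h1]
    have e2 : ∀ α, (dw n ‖x‖ * P ‖x‖ + w n ‖x‖ * dP ‖x‖) * (x α / ‖x‖) * x α =
        (dw n ‖x‖ * P ‖x‖ + w n ‖x‖ * dP ‖x‖) / ‖x‖ * x α ^ 2 := by
      intro α; ring
    simp only [e2, Finset.sum_add_distrib, ← Finset.mul_sum, sum_sq]
    simp only [Finset.sum_const, Finset.card_univ, Fintype.card_fin, nsmul_eq_mul]
    field_simp
  · rw [Fin.sum_univ_succ]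
    simp only [VV', Om, GG, Fin.cons_zero, Fin.cons_succ, zero_mul, Finset.sum_const_zero,
      add_zero]
    have e1 : ∀ α, -cc n α i x * (w n ‖x‖ * (P ‖x‖ * x α)) =
        -(w n ‖x‖ * P ‖x‖ * (ca n ‖x‖ * x i * x α ^ 2 + cb n ‖x‖ * (kd i α * x α))) := by
      intro α; unfold cc; ring
    have e2 : ∀ α, (dw n ‖x‖ * K ‖x‖ + w n ‖x‖ * dK ‖x‖) * (x α / ‖x‖) * (x i * x α) =
        (dw n ‖x‖ * K ‖x‖ + w n ‖x‖ * dK ‖x‖) / ‖x‖ * x i * x α ^ 2 := by
      intro α; ring
    simp only [e1, e2, Finset.sum_neg_distrib, neg_neg, Finset.sum_add_distrib, ← Finset.mul_sum,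
      sum_sq, sum_kd_mul]
    simp only [Finset.sum_const, Finset.card_univ, Fintype.card_fin, nsmul_eq_mul]
    have e3 := eq1 (n := n) h0 h1
    have e4 : w n ‖x‖ * P ‖x‖ * (ca n ‖x‖ * x i * ‖x‖ ^ 2 + cb n ‖x‖ * x i) =
        w n ‖x‖ * P ‖x‖ * (ca n ‖x‖ * ‖x‖ ^ 2 + cb n ‖x‖) * x i := by ring
    rw [e4, ← e3]
    field_simp
    ring

lemma abs_wG_le (hn : 3 ≤ n) (i : Fin (n + 1)) (α : Fin n) {x : E n} (hx : x ∈ U n) :
    |w n ‖x‖ * GG n i α x| ≤ (n + 3) ^ (n - 1) * ‖x‖ / (‖x‖ ^ n * s ‖x‖ ^ 3) := by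
  have h0 := U_pos hx
  have h1 := hx.2.le
  have hs := one_le_s h0 h1
  have hρ := rho_pos (n := n) (by omega) h0 h1
  have hG := abs_GG_le_rho (by omega) hx i α
  have hρ' := rho_le (n := n) (by omega) h0 h1
  obtain ⟨k, rfl⟩ := Nat.exists_eq_add_of_le' hn
  have e1 : k + 3 - 2 = k + 1 := by omega
  have e2 : k + 3 - 1 = k + 2 := by omega
  unfold w
  rw [e1, e2, abs_mul, abs_of_pos (by positivity)]
  calc rho (k + 3) ‖x‖ ^ (k + 1) * |GG (k + 3) i α x|
      ≤ rho (k + 3) ‖x‖ ^ (k + 1) * rho (k + 3) ‖x‖ := by gcongr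
    _ = rho (k + 3) ‖x‖ ^ (k + 2) := by ring
    _ ≤ ((((k + 3 : ℕ) : ℝ) + 3) / (‖x‖ * s ‖x‖ ^ 2)) ^ (k + 2) := by gcongr
    _ = (((k + 3 : ℕ) : ℝ) + 3) ^ (k + 2) * ‖x‖ / (‖x‖ ^ (k + 3) * s ‖x‖ ^ (2 * (k + 2))) := by
        rw [div_pow, mul_pow, ← pow_mul]
        field_simp
        ring
    _ ≤ _ := by
        gcongr
        omega

theorem isWeakSolution (hn : 3 ≤ n) : IsWeakSolution (GG n) (Om n) := by
  have hn1 : 1 ≤ n := by omega
  intro i φ hφ
  have cw : ContinuousOn (fun x : E n => w n ‖x‖) (U n) :=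
    contOn_rad fun r h0 h1 => (hasDerivAt_w hn h0 h1).continuousAt
  have key := ibp hn1 (V := fun α x => w n ‖x‖ * GG n i α x) (V' := VV' n i)
    (D := fun x => -∑ j, ∑ α, Om n α i j x * (w n ‖x‖ * GG n j α x)) (φ := φ)
    (fun α x hx => hasLine_VV hn i α hx) (fun α => cw.mul (contOn_GG i α))
    (fun α => contOn_VV' hn i α) (fun x hx => sum_VV' hn i hx) ?_ ?_ hφ
  · calc _ = ∫ x, ∑ α, w n ‖x‖ * GG n i α x * pd α φ x ∂(ballMeasure n) := by
          apply integral_congr_ae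
          filter_upwards [ae_mem_U hn1] with x hx
          simp only [gradNorm_GG hn1 hx, w]
      _ = _ := key
      _ = _ := by
          rw [← integral_neg]
          apply integral_congr_ae
          filter_upwards [ae_mem_U hn1] with x hx
          simp only [gradNorm_GG hn1 hx, w, neg_mul, neg_neg]
  · intro α
    apply integrable_of_bound hn1 (C := (n + 3) ^ (n - 1))
    · exact aesm_of_continuousOn hn1 ((cw.mul (contOn_GG i α)).div
        continuous_norm.continuousOn (fun _ hx => (U_pos hx).ne'))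
    · intro x hx
      have h0 := U_pos hx
      rw [abs_div, abs_of_pos h0, div_le_iff₀ h0]
      refine (abs_wG_le hn i α hx).trans (le_of_eq ?_)
      ring
  · apply Integrable.neg
    apply integrable_finsetSum
    intro j _
    apply integrable_finsetSum
    intro α _
    apply integrable_of_bound hn1 (C := 35 * n * (n + 3) ^ (n - 1))
    · exact aesm_of_continuousOn hn1 ((contOn_Om (by omega) α i j).mul (cw.mul (contOn_GG j α)))
    · intro x hx
      have h0 := U_pos hx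
      have hs := one_le_s h0 hx.2.le
      rw [abs_mul]
      calc |Om n α i j x| * |w n ‖x‖ * GG n j α x|
          ≤ (35 * n / (‖x‖ * s ‖x‖)) * ((n + 3) ^ (n - 1) * ‖x‖ / (‖x‖ ^ n * s ‖x‖ ^ 3)) := by
            gcongr
            · exact abs_Om_le (by omega) α i j hx
            · exact abs_wG_le hn j α hx
        _ ≤ (35 * n / (‖x‖ * 1)) * ((n + 3) ^ (n - 1) * ‖x‖ / (‖x‖ ^ n * s ‖x‖ ^ 3)) := by
            gcongr
        _ = _ := by field_simp

theorem not_hasContinuousRep (hn : 1 ≤ n) : ¬ HasContinuousRep (uu n) := by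
  rintro ⟨v, hv, hae⟩
  have : Nontrivial (E n) := by
    have : Nonempty (Fin n) := ⟨⟨0, hn⟩⟩
    infer_instance
  have hv0 : ContinuousAt (fun x => v x 0) 0 :=
    (continuous_apply 0).continuousAt.comp (hv.continuousAt (ball_mem_nhds 0 one_pos))
  have h1 : ∀ᶠ x in 𝓝 (0 : E n), v x 0 < v 0 0 + 1 := hv0.eventually (gt_mem_nhds (by linarith))
  have h2 : ∀ᶠ r in 𝓝[>] (0 : ℝ), v 0 0 + 1 < u0 r := tendsto_u0.eventually_gt_atTop _
  rw [eventually_nhdsWithin_iff] at h2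
  have h3 : ∀ᶠ x in 𝓝 (0 : E n), 0 < ‖x‖ → v 0 0 + 1 < u0 ‖x‖ := by
    have hc : Tendsto (fun x : E n => ‖x‖) (𝓝 0) (𝓝 0) := by
      simpa using (continuous_norm (E := E n)).tendsto 0
    exact hc.eventually h2
  have h4 : ∀ᶠ x in 𝓝 (0 : E n), x ∈ ball (0 : E n) 1 := ball_mem_nhds 0 one_pos
  obtain ⟨ε, hε, hball⟩ := Metric.eventually_nhds_iff_ball.mp (h1.and (h3.and h4))
  have h5 : ∀ᵐ x ∂(ballMeasure n), x ∉ ball (0 : E n) ε := by
    filter_upwards [hae, ae_mem_U hn] with x hx hxU hxb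
    obtain ⟨a, b, _⟩ := hball x hxb
    have := hx 0
    simp only [uu, Fin.cons_zero] at this
    have := b (U_pos hxU)
    linarith
  have h6 : ballMeasure n (ball 0 ε) = 0 := measure_eq_zero_iff_ae_notMem.mpr h5
  unfold ballMeasure at h6
  rw [Measure.restrict_apply measurableSet_ball,
    inter_eq_left.mpr (fun x hx => (hball x hx).2.2)] at h6
  exact (measure_ball_pos volume (0 : E n) hε).ne' h6

end Pool.Agent.Lib.MP_a785f2_an
end
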